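import Mathlib

set_option autoImplicit false

/-!
Products of conjugacy classes are closed in the profinite topology of a finitely generated
group `G` which has a normal subgroup `N` of finite index with `[[N, G], N] = 1`.
-/

namespace Pool.Agent.H18PC

/-- the product of the conjugacy classes of the members of a list -/
def conjProd {G : Type*} [Group G] : List G → Set G
  | [] => {1}
  | a :: as => {y | ∃ g z, z ∈ conjProd as ∧ y = g * a * g⁻¹ * z}

/-- the product of the classes under conjugation by `N` -/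
def conjProdN {G : Type*} [Group G] (N : Subgroup G) : List G → Set G
  | [] => {1}
  | a :: as => {y | ∃ g z, g ∈ N ∧ z ∈ conjProdN N as ∧ y = g * a * g⁻¹ * z}

/-- every product of finitely many conjugacy classes is closed in the profinite topology -/
def PC (G : Type*) [Group G] : Prop :=
  ∀ (as : List G) (x : G), x ∉ conjProd as →
    ∃ K : Subgroup G, K.Normal ∧ K.FiniteIndex ∧ ∀ k ∈ K, x * k ∉ conjProd as

/-- subgroup separability of normal subgroups for class at most two, as a statement -/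
def RFStatement.{u} : Prop :=
  ∀ (N : Type u) [Group N] [Group.FG N]
    (_ : ∀ a b c : N, a * b * a⁻¹ * b⁻¹ * c = c * (a * b * a⁻¹ * b⁻¹))
    (C : Subgroup N) [C.Normal] (y : N), y ∉ C →
    ∃ K : Subgroup N, K.Normal ∧ K.FiniteIndex ∧ C ≤ K ∧ y ∉ K

section cosets

variable {G : Type*} [Group G] (N : Subgroup G) [hNn : N.Normal]

/-- `n ↦ a⁻¹ n a n⁻¹` -/
def phi (hN : ∀ n ∈ N, ∀ g : G, ∀ m ∈ N, Commute (n * g * n⁻¹ * g⁻¹) m) (a : G) : N →* G where
  toFun n := a⁻¹ * n * a * (n : G)⁻¹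
  map_one' := by simp
  map_mul' := by
    rintro ⟨n, hn⟩ ⟨m, hm⟩
    have h1 : Commute (m * a⁻¹ * m⁻¹ * a⁻¹⁻¹) n := hN m hm a⁻¹ n hn
    have h2 : Commute ((m * a⁻¹ * m⁻¹ * a⁻¹⁻¹)⁻¹) n := h1.inv_left
    have h3 : (m * a⁻¹ * m⁻¹ * a⁻¹⁻¹)⁻¹ = a⁻¹ * m * a * m⁻¹ := by group
    rw [h3] at h2
    have h4 : Commute (a⁻¹ * m * a * m⁻¹) n⁻¹ := h2.inv_right
    have h5 : a⁻¹ * n * a * n⁻¹ * (a⁻¹ * m * a * m⁻¹)
        = a⁻¹ * n * a * ((a⁻¹ * m * a * m⁻¹) * n⁻¹) := by
      rw [h4.eq]; group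
    simp only [Subgroup.coe_mul]
    rw [h5]
    group

omit hNn in
theorem phi_apply (hN : ∀ n ∈ N, ∀ g : G, ∀ m ∈ N, Commute (n * g * n⁻¹ * g⁻¹) m) (a : G)
    (n : N) : phi N hN a n = a⁻¹ * n * a * (n : G)⁻¹ := rfl

theorem phi_mem (hN : ∀ n ∈ N, ∀ g : G, ∀ m ∈ N, Commute (n * g * n⁻¹ * g⁻¹) m) (a : G)
    (n : N) : phi N hN a n ∈ N := by
  rw [phi_apply]
  have h1 : a⁻¹ * n * a ∈ N := by
    have := hNn.conj_mem n n.2 a⁻¹
    simpa using this
  exact N.mul_mem h1 (N.inv_mem n.2)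

omit hNn in
theorem phi_comm (hN : ∀ n ∈ N, ∀ g : G, ∀ m ∈ N, Commute (n * g * n⁻¹ * g⁻¹) m) (a : G)
    (n : N) (m : G) (hm : m ∈ N) : Commute (phi N hN a n) m := by
  rw [phi_apply]
  have h1 : Commute ((n : G) * a⁻¹ * (n : G)⁻¹ * a⁻¹⁻¹) m := hN n n.2 a⁻¹ m hm
  have h2 := h1.inv_left
  have h3 : ((n : G) * a⁻¹ * (n : G)⁻¹ * a⁻¹⁻¹)⁻¹ = a⁻¹ * n * a * (n : G)⁻¹ := by group
  rwa [h3] at h2

/-- a product of `N`-classes is a coset of a subgroup of the centre of `N` -/
theorem conjProdN_coset (hN : ∀ n ∈ N, ∀ g : G, ∀ m ∈ N, Commute (n * g * n⁻¹ * g⁻¹) m) :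
    ∀ as : List G, ∃ C : Subgroup G, (∀ c ∈ C, c ∈ N ∧ ∀ m ∈ N, Commute c m) ∧
      ∀ y, y ∈ conjProdN N as ↔ as.prod⁻¹ * y ∈ C
  | [] => by
    refine ⟨⊥, ?_, ?_⟩
    · intro c hc
      rw [Subgroup.mem_bot] at hc
      subst hc
      exact ⟨N.one_mem, fun m _ => Commute.one_left m⟩
    · intro y
      simp [conjProdN]
  | a :: as => by
    obtain ⟨C, hC, hy⟩ := conjProdN_coset hN as
    set P := as.prod with hP
    have hz : ∀ n : N, P⁻¹ * phi N hN a n * P ∈ N := by
      intro n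
      have := hNn.conj_mem _ (phi_mem N hN a n) P⁻¹
      simpa using this
    have hzc : ∀ (n : N) (m : G), m ∈ N → Commute (P⁻¹ * phi N hN a n * P) m := by
      intro n m hm
      have h1 : P * m * P⁻¹ ∈ N := hNn.conj_mem _ hm P
      have h2 := phi_comm N hN a n _ h1
      have h3 : phi N hN a n * (P * m * P⁻¹) = P * m * P⁻¹ * phi N hN a n := h2.eq
      show P⁻¹ * phi N hN a n * P * m = m * (P⁻¹ * phi N hN a n * P)
      calc P⁻¹ * phi N hN a n * P * m
          = P⁻¹ * (phi N hN a n * (P * m * P⁻¹)) * P := by group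
        _ = P⁻¹ * (P * m * P⁻¹ * phi N hN a n) * P := by rw [h3]
        _ = m * (P⁻¹ * phi N hN a n * P) := by group
    let F : N × C →* G :=
      { toFun := fun q => P⁻¹ * phi N hN a q.1 * P * (q.2 : G)
        map_one' := by simp
        map_mul' := by
          rintro ⟨n, c⟩ ⟨n', c'⟩
          have h1 : Commute (P⁻¹ * phi N hN a n' * P) (c : G) := hzc n' c (hC c c.2).1
          simp only [Prod.mk_mul_mk, map_mul, Subgroup.coe_mul]
          calc P⁻¹ * (phi N hN a n * phi N hN a n') * P * ((c : G) * (c' : G))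
              = P⁻¹ * phi N hN a n * P * ((P⁻¹ * phi N hN a n' * P) * (c : G)) * (c' : G) := by
                group
            _ = P⁻¹ * phi N hN a n * P * ((c : G) * (P⁻¹ * phi N hN a n' * P)) * (c' : G) := by
                rw [h1.eq]
            _ = P⁻¹ * phi N hN a n * P * (c : G) * (P⁻¹ * phi N hN a n' * P * (c' : G)) := by
                group }
    have hF : ∀ q : N × C, F q = P⁻¹ * phi N hN a q.1 * P * (q.2 : G) := fun q => rfl
    refine ⟨F.range, ?_, ?_⟩
    · rintro c ⟨q, rfl⟩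
      rw [hF]
      refine ⟨N.mul_mem (hz q.1) (hC _ q.2.2).1, ?_⟩
      intro m hm
      exact (hzc q.1 m hm).mul_left ((hC _ q.2.2).2 m hm)
    · intro y
      rw [List.prod_cons, ← hP]
      constructor
      · rintro ⟨g, z, hg, hzm, rfl⟩
        rw [hy] at hzm
        refine ⟨(⟨g, hg⟩, ⟨_, hzm⟩), ?_⟩
        rw [hF, phi_apply]
        show P⁻¹ * (a⁻¹ * g * a * g⁻¹) * P * (P⁻¹ * z) = (a * P)⁻¹ * (g * a * g⁻¹ * z)
        group
      · rintro ⟨q, hq⟩
        rw [hF, phi_apply] at hq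
        refine ⟨q.1, P * q.2, q.1.2, ?_, ?_⟩
        · rw [hy]
          simp
        · have h1 : y = (a * P) * ((a * P)⁻¹ * y) := by group
          rw [h1, ← hq]
          group

end cosets

section sep

variable {G : Type*} [Group G] (N : Subgroup G) [hNn : N.Normal]

/-- every class is a finite union of `N`-classes, so is every product -/
theorem conjProd_union [N.FiniteIndex] : ∀ as : List G, ∃ L : Set (List G), L.Finite ∧
    ∀ y, y ∈ conjProd as ↔ ∃ bs ∈ L, y ∈ conjProdN N bs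
  | [] => by
    refine ⟨{[]}, Set.finite_singleton _, ?_⟩
    intro y
    simp [conjProd, conjProdN]
  | a :: as => by
    obtain ⟨L, hL, hy⟩ := conjProd_union as
    have : Finite (G ⧸ N) := inferInstance
    let R : Set G := Set.range (fun q : G ⧸ N => q.out * a * q.out⁻¹)
    have hR : R.Finite := Set.finite_range _
    refine ⟨Set.image2 (fun b bs => b :: bs) R L, hR.image2 _ hL, ?_⟩
    intro y
    constructor
    · rintro ⟨g, z, hz, rfl⟩
      rw [hy] at hz
      obtain ⟨bs, hbs, hz⟩ := hz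
      set t : G := ((g : G ⧸ N)).out with ht
      have h1 : (t : G ⧸ N) = (g : G ⧸ N) := by
        rw [ht]; exact Quotient.out_eq' _
      have h2 : t⁻¹ * g ∈ N := QuotientGroup.eq.1 h1
      have h3 : g * t⁻¹ ∈ N := by
        have := hNn.conj_mem _ h2 t
        have h4 : t * (t⁻¹ * g) * t⁻¹ = g * t⁻¹ := by group
        rwa [h4] at this
      refine ⟨(t * a * t⁻¹) :: bs, ⟨_, ⟨_, rfl⟩, bs, hbs, rfl⟩, ?_⟩
      refine ⟨g * t⁻¹, z, h3, hz, ?_⟩
      group
    · rintro ⟨cs, ⟨b, ⟨q, rfl⟩, bs, hbs, rfl⟩, hz⟩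
      obtain ⟨g, z, hg, hz, rfl⟩ := hz
      refine ⟨g * q.out, z, ?_, ?_⟩
      · rw [hy]; exact ⟨bs, hbs, hz⟩
      · group

theorem sepN.{u} {G : Type u} [Group G] [Group.FG G] (N : Subgroup G) [hNn : N.Normal]
    [N.FiniteIndex] (rf : RFStatement.{u})
    (hN : ∀ n ∈ N, ∀ g : G, ∀ m ∈ N, Commute (n * g * n⁻¹ * g⁻¹) m) (as : List G) (x : G)
    (hx : x ∉ conjProdN N as) :
    ∃ K : Subgroup G, K.Normal ∧ K.FiniteIndex ∧ ∀ k ∈ K, x * k ∉ conjProdN N as := by
  obtain ⟨C, hC, hy⟩ := conjProdN_coset N hN as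
  rw [hy] at hx
  have key : ∃ K1 : Subgroup G, K1.FiniteIndex ∧ C ≤ K1 ∧ as.prod⁻¹ * x ∉ K1 := by
    by_cases hxN : as.prod⁻¹ * x ∈ N
    · have : Group.FG N := Subgroup.fg_of_index_ne_zero N
      have hCn : (C.subgroupOf N).Normal := by
        constructor
        intro c hc g
        rw [Subgroup.mem_subgroupOf] at hc ⊢
        have h1 := (hC _ hc).2 g g.2
        have h2 : ((g * c * g⁻¹ : N) : G) = (c : G) := by
          simp only [Subgroup.coe_mul, Subgroup.coe_inv]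
          rw [← h1.eq]
          group
        rw [h2]
        exact hc
      obtain ⟨K0, hK0n, hK0f, hCK, hK0⟩ := rf N (by
        intro a b c
        apply Subtype.ext
        simp only [Subgroup.coe_mul, Subgroup.coe_inv]
        exact (hN a a.2 b c c.2).eq) (C.subgroupOf N) ⟨_, hxN⟩ (by
          rw [Subgroup.mem_subgroupOf]; exact hx)
      refine ⟨K0.map N.subtype, ?_, ?_, ?_⟩
      · constructor
        rw [Subgroup.index_map_subtype]
        exact mul_ne_zero hK0f.index_ne_zero Subgroup.FiniteIndex.index_ne_zero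
      · intro c hc
        exact ⟨⟨c, (hC c hc).1⟩, hCK (by
          show (⟨c, (hC c hc).1⟩ : N) ∈ C.subgroupOf N
          rw [Subgroup.mem_subgroupOf]; exact hc), rfl⟩
      · rintro ⟨z, hz, hzx⟩
        apply hK0
        have : z = ⟨as.prod⁻¹ * x, hxN⟩ := Subtype.ext hzx
        rw [← this]
        exact hz
    · exact ⟨N, inferInstance, fun c hc => (hC c hc).1, hxN⟩
  obtain ⟨K1, hK1, hCK1, hxK1⟩ := key
  refine ⟨K1.normalCore, inferInstance, inferInstance, ?_⟩
  intro k hk hmem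
  rw [hy] at hmem
  apply hxK1
  have h1 : as.prod⁻¹ * x = (as.prod⁻¹ * (x * k)) * k⁻¹ := by group
  rw [h1]
  exact K1.mul_mem (hCK1 hmem) (K1.inv_mem (K1.normalCore_le hk))

/-- `[[N, G], N] = 1` with `N` normal of finite index in a finitely generated group -/
theorem pc_of_rf.{u} {G : Type u} [Group G] [Group.FG G] (N : Subgroup G) [hNn : N.Normal]
    [N.FiniteIndex] (rf : RFStatement.{u})
    (hN : ∀ n ∈ N, ∀ g : G, ∀ m ∈ N, Commute (n * g * n⁻¹ * g⁻¹) m) : PC G := by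
  intro as x hx
  obtain ⟨L, hL, hy⟩ := conjProd_union N as
  have hfin : Finite L := hL
  have h1 : ∀ bs : L, ∃ K : Subgroup G, K.Normal ∧ K.FiniteIndex ∧
      ∀ k ∈ K, x * k ∉ conjProdN N (bs : List G) := by
    intro bs
    apply sepN N rf hN
    intro h
    exact hx ((hy x).2 ⟨bs, bs.2, h⟩)
  choose K hKn hKf hK using h1
  refine ⟨⨅ bs, K bs, ?_, ?_, ?_⟩
  · exact Subgroup.normal_iInf_normal hKn
  · exact Subgroup.finiteIndex_iInf hKf
  · intro k hk hmem
    rw [hy] at hmem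
    obtain ⟨bs, hbs, hz⟩ := hmem
    rw [Subgroup.mem_iInf] at hk
    exact hK ⟨bs, hbs⟩ k (hk _) hz

end sep

end Pool.Agent.H18PC
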