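import Mathlib
import Pool.Agent.H18PC.PC
import Pool.Agent.H71MU.Ultra

set_option autoImplicit false

namespace Pool.Agent.H18PC

section conjprod

variable {G : Type*} [Group G]

theorem conjProd_append {as bs : List G} {z w : G} (hz : z ∈ conjProd as)
    (hw : w ∈ conjProd bs) : z * w ∈ conjProd (as ++ bs) := by
  induction as generalizing z with
  | nil =>
    have : z = 1 := hz
    subst this
    simpa using hw
  | cons a as ih =>
    obtain ⟨g, z', hz', rfl⟩ := hz
    exact ⟨g, z' * w, ih hz', by group⟩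

theorem conjProd_conj {as : List G} {z : G} (hz : z ∈ conjProd as) (h : G) :
    h * z * h⁻¹ ∈ conjProd as := by
  induction as generalizing z with
  | nil =>
    have : z = 1 := hz
    subst this
    show h * 1 * h⁻¹ = 1
    group
  | cons a as ih =>
    obtain ⟨g, z', hz', rfl⟩ := hz
    exact ⟨h * g, h * z' * h⁻¹, ih hz', by group⟩

theorem conjProd_single (a g : G) : g * a * g⁻¹ ∈ conjProd [a] :=
  ⟨g, 1, rfl, by group⟩

theorem conjProd_inv {as : List G} {z : G} (hz : z ∈ conjProd as) :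
    z⁻¹ ∈ conjProd ((as.map (fun a => a⁻¹)).reverse) := by
  induction as generalizing z with
  | nil =>
    have : z = 1 := hz
    subst this
    show (1 : G)⁻¹ = 1
    group
  | cons a as ih =>
    obtain ⟨g, z', hz', rfl⟩ := hz
    rw [List.map_cons, List.reverse_cons]
    have h1 : (g * a * g⁻¹ * z')⁻¹ = z'⁻¹ * (g * a⁻¹ * g⁻¹) := by group
    rw [h1]
    exact conjProd_append (ih hz') (conjProd_single _ _)

end conjprod

section cost

variable {G : Type*} [Group G] (A : Finset G) (l : G → ℝ) (D : ℝ)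

/-- the costs of a coset -/
def costSet (K : Subgroup G) [K.Normal] (u : G ⧸ K) : Set ℝ :=
  {s | s = D ∨ ∃ as : List G, (∀ a ∈ as, a ∈ A) ∧
    (∃ z ∈ conjProd as, (QuotientGroup.mk z : G ⧸ K) = u) ∧ s = (as.map l).sum}

/-- the length function on the quotient -/
noncomputable def len (K : Subgroup G) [K.Normal] (u : G ⧸ K) : ℝ := sInf (costSet A l D K u)

variable {A l D}
variable (hl0 : ∀ a ∈ A, 0 ≤ l a) (hD : 0 ≤ D)

include hl0 in
theorem sum_nonneg {as : List G} (has : ∀ a ∈ as, a ∈ A) : 0 ≤ (as.map l).sum := by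
  apply List.sum_nonneg
  intro x hx
  obtain ⟨a, ha, rfl⟩ := List.mem_map.1 hx
  exact hl0 a (has a ha)

theorem costSet_nonempty (K : Subgroup G) [K.Normal] (u : G ⧸ K) :
    (costSet A l D K u).Nonempty := ⟨D, Or.inl rfl⟩

include hl0 hD in
theorem costSet_nonneg (K : Subgroup G) [K.Normal] (u : G ⧸ K) :
    ∀ s ∈ costSet A l D K u, 0 ≤ s := by
  rintro s (rfl | ⟨as, has, -, rfl⟩)
  · exact hD
  · exact sum_nonneg hl0 has

include hl0 hD in
theorem costSet_bdd (K : Subgroup G) [K.Normal] (u : G ⧸ K) :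
    BddBelow (costSet A l D K u) := ⟨0, fun s hs => costSet_nonneg hl0 hD K u s hs⟩

include hl0 hD in
theorem len_nonneg (K : Subgroup G) [K.Normal] (u : G ⧸ K) : 0 ≤ len A l D K u :=
  le_csInf (costSet_nonempty K u) (costSet_nonneg hl0 hD K u)

include hl0 hD in
theorem len_one (K : Subgroup G) [K.Normal] : len A l D K 1 = 0 := by
  apply le_antisymm _ (len_nonneg hl0 hD K 1)
  apply csInf_le (costSet_bdd hl0 hD K 1)
  exact Or.inr ⟨[], by simp, ⟨1, rfl, rfl⟩, by simp⟩

include hl0 hD in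
theorem len_le (K : Subgroup G) [K.Normal] {u : G ⧸ K} {s : ℝ} (hs : s ∈ costSet A l D K u) :
    len A l D K u ≤ s := csInf_le (costSet_bdd hl0 hD K u) hs

include hl0 hD in
theorem len_pos (K : Subgroup G) [K.Normal] {δ : ℝ} (hδ : ∀ a ∈ A, δ ≤ l a) (hδD : δ ≤ D)
    {u : G ⧸ K} (hu : u ≠ 1) : δ ≤ len A l D K u := by
  apply le_csInf (costSet_nonempty K u)
  rintro s (rfl | ⟨as, has, ⟨z, hz, hzu⟩, rfl⟩)
  · exact hδD
  · cases as with
    | nil =>
      exfalso
      have : z = 1 := hz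
      subst this
      exact hu (by rw [← hzu]; rfl)
    | cons a as =>
      rw [List.map_cons, List.sum_cons]
      have h1 := hδ a (has a (by simp))
      have h2 : 0 ≤ (as.map l).sum := sum_nonneg hl0 (fun b hb => has b (by simp [hb]))
      linarith

include hl0 hD in
theorem len_mul (K : Subgroup G) [K.Normal] (u v : G ⧸ K) :
    len A l D K (u * v) ≤ len A l D K u + len A l D K v := by
  have key : ∀ s ∈ costSet A l D K u, ∀ t ∈ costSet A l D K v, len A l D K (u * v) ≤ s + t := by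
    intro s hs t ht
    have hs0 := costSet_nonneg hl0 hD K u s hs
    have ht0 := costSet_nonneg hl0 hD K v t ht
    have hDle : len A l D K (u * v) ≤ D := len_le hl0 hD K (Or.inl rfl)
    rcases hs with rfl | ⟨as, has, ⟨z, hz, rfl⟩, rfl⟩
    · linarith
    · rcases ht with rfl | ⟨bs, hbs, ⟨w, hw, rfl⟩, rfl⟩
      · linarith
      · apply len_le hl0 hD K
        refine Or.inr ⟨as ++ bs, ?_, ⟨z * w, conjProd_append hz hw, rfl⟩, by simp⟩
        intro a ha
        rcases List.mem_append.1 ha with h | h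
        · exact has a h
        · exact hbs a h
  have h1 : ∀ s ∈ costSet A l D K u, len A l D K (u * v) - s ≤ len A l D K v := by
    intro s hs
    apply le_csInf (costSet_nonempty K v)
    intro t ht
    linarith [key s hs t ht]
  have h2 : len A l D K (u * v) - len A l D K v ≤ len A l D K u := by
    apply le_csInf (costSet_nonempty K u)
    intro s hs
    linarith [h1 s hs]
  linarith

include hl0 hD in
theorem len_inv_le (K : Subgroup G) [K.Normal] (hAinv : ∀ a ∈ A, a⁻¹ ∈ A)
    (hlinv : ∀ a, l a⁻¹ = l a) (u : G ⧸ K) :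
    len A l D K u⁻¹ ≤ len A l D K u := by
  apply le_csInf (costSet_nonempty K u)
  rintro s (rfl | ⟨as, has, ⟨z, hz, rfl⟩, rfl⟩)
  · exact len_le hl0 hD K (Or.inl rfl)
  · apply len_le hl0 hD K
    refine Or.inr ⟨(as.map (fun a => a⁻¹)).reverse, ?_, ⟨z⁻¹, conjProd_inv hz, rfl⟩, ?_⟩
    · intro a ha
      rw [List.mem_reverse, List.mem_map] at ha
      obtain ⟨b, hb, rfl⟩ := ha
      exact hAinv b (has b hb)
    · rw [List.map_reverse, List.sum_reverse, List.map_map]
      congr 1
      apply List.map_congr_left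
      intro a _
      exact (hlinv a).symm

include hl0 hD in
theorem len_inv (K : Subgroup G) [K.Normal] (hAinv : ∀ a ∈ A, a⁻¹ ∈ A)
    (hlinv : ∀ a, l a⁻¹ = l a) (u : G ⧸ K) :
    len A l D K u⁻¹ = len A l D K u := by
  apply le_antisymm (len_inv_le hl0 hD K hAinv hlinv u)
  have := len_inv_le hl0 hD K hAinv hlinv u⁻¹
  rwa [inv_inv] at this

include hl0 hD in
theorem len_conj_le (K : Subgroup G) [K.Normal] (u v : G ⧸ K) :
    len A l D K (v * u * v⁻¹) ≤ len A l D K u := by
  apply le_csInf (costSet_nonempty K u)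
  rintro s (rfl | ⟨as, has, ⟨z, hz, rfl⟩, rfl⟩)
  · exact len_le hl0 hD K (Or.inl rfl)
  · apply len_le hl0 hD K
    obtain ⟨h, rfl⟩ := QuotientGroup.mk_surjective v
    exact Or.inr ⟨as, has, ⟨h * z * h⁻¹, conjProd_conj hz h, rfl⟩, rfl⟩

include hl0 hD in
theorem len_conj (K : Subgroup G) [K.Normal] (u v : G ⧸ K) :
    len A l D K (v * u * v⁻¹) = len A l D K u := by
  apply le_antisymm (len_conj_le hl0 hD K u v)
  have := len_conj_le hl0 hD K (v * u * v⁻¹) v⁻¹
  have h1 : v⁻¹ * (v * u * v⁻¹) * v⁻¹⁻¹ = u := by group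
  rwa [h1] at this

end cost

/-- lengths of products of conjugates -/
theorem len_conjProd {G : Type*} [Group G] {ρ : G → G → ℝ} (hρ : H71MU.BiMetric G ρ)
    {as : List G} {z : G} (hz : z ∈ conjProd as) :
    ρ z 1 ≤ (as.map (fun a => ρ a 1)).sum := by
  induction as generalizing z with
  | nil =>
    have : z = 1 := hz
    subst this
    simp [hρ.self]
  | cons a as ih =>
    obtain ⟨g, z', hz', rfl⟩ := hz
    rw [List.map_cons, List.sum_cons]
    have h1 := hρ.mul_le (g * a * g⁻¹) z'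
    have h2 := hρ.conj g a
    have h3 := ih hz'
    linarith

theorem exists_quot {G : Type*} [Group G] (hPC : PC G) {ρ : G → G → ℝ}
    (hρ : H71MU.BiMetric G ρ) (A : Finset G) (hA1 : (1 : G) ∉ A) (hAinv : ∀ a ∈ A, a⁻¹ ∈ A) :
    ∃ (K : Subgroup G) (_ : K.Normal) (_ : K.FiniteIndex) (dF : G ⧸ K → G ⧸ K → ℝ),
      H71MU.BiMetric (G ⧸ K) dF ∧
      ∀ a ∈ A, dF (QuotientGroup.mk a) 1 = ρ a 1 := by
  classical
  set l : G → ℝ := fun a => ρ a 1 with hl
  have hl0 : ∀ a ∈ A, 0 ≤ l a := fun a _ => hρ.nonneg a 1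
  have hlpos : ∀ a ∈ A, 0 < l a := by
    intro a ha
    rcases lt_or_eq_of_le (hl0 a ha) with h | h
    · exact h
    · exfalso
      have := (hρ.eq_zero_iff a 1).1 h.symm
      subst this
      exact hA1 ha
  obtain ⟨δ, hδ0, hδ⟩ : ∃ δ : ℝ, 0 < δ ∧ ∀ a ∈ A, δ ≤ l a := by
    rcases A.eq_empty_or_nonempty with h | h
    · exact ⟨1, one_pos, by simp [h]⟩
    · obtain ⟨a, ha, hmin⟩ := A.exists_min_image l h
      exact ⟨l a, hlpos a ha, hmin⟩
  set D : ℝ := δ + ∑ a ∈ A, l a with hDdef
  have hsum0 : 0 ≤ ∑ a ∈ A, l a := Finset.sum_nonneg hl0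
  have hδD : δ ≤ D := by linarith
  have hD : 0 ≤ D := by linarith
  have hlD : ∀ a ∈ A, l a ≤ D := by
    intro a ha
    have := Finset.single_le_sum hl0 ha
    linarith
  obtain ⟨n, hn⟩ := exists_nat_gt (D / δ)
  -- finitely many lists
  have hfin : Finite {as : List G // as.length ≤ n ∧ ∀ a ∈ as, a ∈ A} := by
    have h1 : {as : List A | as.length ≤ n}.Finite := List.finite_length_le A n
    have h2 : {as : List G | as.length ≤ n ∧ ∀ a ∈ as, a ∈ A} ⊆
        (fun as : List A => as.map (fun a => (a : G))) '' {as : List A | as.length ≤ n} := by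
      rintro as ⟨h3, h4⟩
      refine ⟨as.attachWith _ h4, ?_, ?_⟩
      · simpa using h3
      · simp
    exact (h1.image _).subset h2
  have hex : ∀ p : {as : List G // as.length ≤ n ∧ ∀ a ∈ as, a ∈ A} × A,
      ∃ K : Subgroup G, K.Normal ∧ K.FiniteIndex ∧
        ((p.2 : G) ∉ conjProd p.1.1 → ∀ k ∈ K, (p.2 : G) * k ∉ conjProd p.1.1) := by
    intro p
    by_cases h : (p.2 : G) ∈ conjProd p.1.1
    · exact ⟨⊤, inferInstance, inferInstance, fun h' => absurd h h'⟩
    · obtain ⟨K, h1, h2, h3⟩ := hPC p.1.1 p.2 h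
      exact ⟨K, h1, h2, fun _ => h3⟩
  choose K hKn hKf hK using hex
  have hKKn : (⨅ p, K p).Normal := Subgroup.normal_iInf_normal hKn
  have hKKf : (⨅ p, K p).FiniteIndex := Subgroup.finiteIndex_iInf hKf
  set KK := ⨅ p, K p with hKK
  have hlinv : ∀ a, l a⁻¹ = l a := fun a => hρ.inv_one a
  have hlen : ∀ a ∈ A, len A l D KK (QuotientGroup.mk a) = l a := by
    intro a ha
    apply le_antisymm
    · apply len_le hl0 hD
      refine Or.inr ⟨[a], by simpa using ha, ⟨1 * a * 1⁻¹, conjProd_single a 1, by simp⟩, by simp⟩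
    · apply le_csInf (costSet_nonempty KK _)
      rintro s (rfl | ⟨as, has, ⟨z, hz, hza⟩, rfl⟩)
      · exact hlD a ha
      · by_contra hlt
        push Not at hlt
        -- the length is bounded
        have hlen1 : ∀ bs : List G, (∀ b ∈ bs, b ∈ A) → δ * bs.length ≤ (bs.map l).sum := by
          intro bs
          induction bs with
          | nil => intro _; simp
          | cons b bs ih =>
            intro h
            rw [List.map_cons, List.sum_cons, List.length_cons]
            push_cast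
            have h1 := hδ b (h b (by simp))
            have h2 := ih (fun c hc => h c (by simp [hc]))
            linarith
        have hlen2 : (as.length : ℝ) < n := by
          have h1 := hlen1 as has
          have h2 : δ * as.length < D := lt_of_le_of_lt h1 (lt_of_lt_of_le hlt (hlD a ha))
          have h3 : (as.length : ℝ) < D / δ := by
            rw [lt_div_iff₀ hδ0]; linarith
          exact h3.trans hn
        have hlen3 : as.length ≤ n := by exact_mod_cast hlen2.le
        by_cases hmem : a ∈ conjProd as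
        · have := len_conjProd hρ hmem
          linarith
        · have h4 : a⁻¹ * z ∈ KK := QuotientGroup.eq.1 hza.symm
          have h5 : a⁻¹ * z ∈ K (⟨as, hlen3, has⟩, ⟨a, ha⟩) := (Subgroup.mem_iInf.1 h4) _
          have h6 := hK (⟨as, hlen3, has⟩, ⟨a, ha⟩) hmem _ h5
          apply h6
          show a * (a⁻¹ * z) ∈ conjProd as
          have h7 : a * (a⁻¹ * z) = z := by group
          rw [h7]; exact hz
  refine ⟨KK, hKKn, hKKf, fun u v => len A l D KK (u * v⁻¹), ?_, ?_⟩
  · refine ⟨?_, ?_, ?_, ?_, ?_⟩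
    · intro u v
      constructor
      · intro h
        by_contra hne
        have h1 : u * v⁻¹ ≠ 1 := fun h2 => hne (mul_inv_eq_one.1 h2)
        have h2 := len_pos hl0 hD KK hδ hδD h1
        linarith
      · rintro rfl
        rw [mul_inv_cancel]
        exact len_one hl0 hD KK
    · intro u v
      have h1 : v * u⁻¹ = (u * v⁻¹)⁻¹ := by group
      rw [h1, len_inv hl0 hD KK hAinv hlinv]
    · intro u v w
      have h1 : u * w⁻¹ = (u * v⁻¹) * (v * w⁻¹) := by group
      rw [h1]
      exact len_mul hl0 hD KK _ _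
    · intro g u v
      have h1 : g * u * (g * v)⁻¹ = g * (u * v⁻¹) * g⁻¹ := by group
      rw [h1, len_conj hl0 hD KK]
    · intro g u v
      have h1 : u * g * (v * g)⁻¹ = u * v⁻¹ := by group
      rw [h1]
  · intro a ha
    show len A l D KK (QuotientGroup.mk a * 1⁻¹) = ρ a 1
    rw [inv_one, mul_one]
    exact hlen a ha

/-- exact finite models of finite subsets -/
theorem local_of_PC.{u} {H : Type u} [Group H] {ρ : H → H → ℝ} (hρ : H71MU.BiMetric H ρ)
    (hPC : ∀ S : Finset H, PC (Subgroup.closure (S : Set H))) (B : Finset H) :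
    ∃ (F : Type u) (_ : Group F) (_ : Finite F) (dF : F → F → ℝ)
      (_ : H71MU.BiMetric F dF) (f : H → F),
      (∀ x, dF (f x) 1 ≤ ρ x 1) ∧
      (∀ x ∈ B, ∀ y ∈ B, x * y ∈ B → f (x * y) = f x * f y) ∧
      (∀ x ∈ B, ∀ y ∈ B, dF (f x) (f y) = ρ x y) := by
  classical
  set G := Subgroup.closure (B : Set H) with hG
  have hBG : ∀ b ∈ B, b ∈ G := fun b hb => Subgroup.subset_closure hb
  have hρG : H71MU.BiMetric G (fun x y => ρ (x : H) (y : H)) := by
    refine ⟨?_, ?_, ?_, ?_, ?_⟩
    · intro a b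
      rw [hρ.eq_zero_iff]
      exact Subtype.ext_iff.symm
    · intro a b; exact hρ.symm _ _
    · intro a b c; exact hρ.triangle _ _ _
    · intro g a b; exact hρ.left _ _ _
    · intro g a b; exact hρ.right _ _ _
  -- the finite set
  let BG : Finset G := insert 1 (B.attach.image (fun b => (⟨b.1, hBG b.1 b.2⟩ : G)))
  let A : Finset G := (Finset.image₂ (fun x y => x * y⁻¹) BG BG).erase 1
  have hBGmem : ∀ b (hb : b ∈ B), (⟨b, hBG b hb⟩ : G) ∈ BG := by
    intro b hb
    apply Finset.mem_insert_of_mem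
    rw [Finset.mem_image]
    exact ⟨⟨b, hb⟩, Finset.mem_attach _ _, rfl⟩
  have hA1 : (1 : G) ∉ A := Finset.notMem_erase _ _
  have hAmem : ∀ x y : G, x ∈ BG → y ∈ BG → x ≠ y → x * y⁻¹ ∈ A := by
    intro x y hx hy hxy
    rw [Finset.mem_erase]
    refine ⟨fun h => hxy (mul_inv_eq_one.1 h), ?_⟩
    exact Finset.mem_image₂_of_mem hx hy
  have hAinv : ∀ a ∈ A, a⁻¹ ∈ A := by
    intro a ha
    rw [Finset.mem_erase] at ha
    obtain ⟨h1, h2⟩ := ha
    obtain ⟨x, hx, y, hy, rfl⟩ := Finset.mem_image₂.1 h2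
    have h3 : (x * y⁻¹)⁻¹ = y * x⁻¹ := by group
    rw [h3]
    apply hAmem y x hy hx
    rintro rfl
    exact h1 (by group)
  obtain ⟨K, hKn, hKf, dF, hdF, hdA⟩ := exists_quot (hPC B) hρG A hA1 hAinv
  refine ⟨G ⧸ K, inferInstance, inferInstance, dF, hdF,
    fun x => if hx : x ∈ B then (QuotientGroup.mk (⟨x, hBG x hx⟩ : G)) else 1, ?_, ?_, ?_⟩
  · intro x
    by_cases hx : x ∈ B
    · simp only [dif_pos hx]
      by_cases h1 : x = 1
      · subst h1
        have h2 : (QuotientGroup.mk (⟨1, hBG 1 hx⟩ : G) : G ⧸ K) = 1 := rfl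
        rw [h2, hdF.self]
        exact hρ.nonneg _ _
      · have h2 : (⟨x, hBG x hx⟩ : G) ∈ A := by
          have := hAmem ⟨x, hBG x hx⟩ 1 (hBGmem x hx) (Finset.mem_insert_self _ _)
            (fun h => h1 (Subtype.ext_iff.1 h))
          simpa using this
        rw [hdA _ h2]
        exact le_refl _
    · simp only [dif_neg hx]
      rw [hdF.self]
      exact hρ.nonneg _ _
  · intro x hx y hy hxy
    simp only [dif_pos hx, dif_pos hy, dif_pos hxy]
    rfl
  · intro x hx y hy
    simp only [dif_pos hx, dif_pos hy]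
    by_cases hxy : x = y
    · subst hxy
      rw [hdF.self, hρ.self]
    · have h1 := hAmem ⟨x, hBG x hx⟩ ⟨y, hBG y hy⟩ (hBGmem x hx) (hBGmem y hy)
        (fun h => hxy (Subtype.ext_iff.1 h))
      have h2 := hdA _ h1
      have h3 := hdF.right (QuotientGroup.mk (⟨y, hBG y hy⟩ : G))⁻¹
        (QuotientGroup.mk (⟨x, hBG x hx⟩ : G)) (QuotientGroup.mk (⟨y, hBG y hy⟩ : G))
      rw [mul_inv_cancel] at h3
      rw [← h3]
      have h4 : (QuotientGroup.mk (⟨x, hBG x hx⟩ : G) : G ⧸ K) *
          (QuotientGroup.mk (⟨y, hBG y hy⟩ : G))⁻¹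
          = QuotientGroup.mk ((⟨x, hBG x hx⟩ : G) * (⟨y, hBG y hy⟩ : G)⁻¹) := rfl
      rw [h4, h2]
      show ρ (x * y⁻¹) 1 = ρ x y
      have h5 := hρ.right y (x * y⁻¹) 1
      rw [inv_mul_cancel_right, one_mul] at h5
      exact h5.symm

theorem embeds_of_PC.{u} {H : Type u} [Group H] {ρ : H → H → ℝ} (hρ : H71MU.BiMetric H ρ)
    (hPC : ∀ S : Finset H, PC (Subgroup.closure (S : Set H))) :
    H71MU.EmbedsInFiniteUltraproduct H ρ :=
  H71MU.embeds_of_local hρ (local_of_PC hρ hPC)

end Pool.Agent.H18PC
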