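import Mathlib
import Pool.Agent.H18PC.Local
import Pool.Agent.H71MU.Ultra

set_option autoImplicit false

namespace Pool.Agent.H18PC

open H71MU Filter Topology

universe u

/-- The approximate embedding criterion. -/
theorem embeds_of_approx {G : Type u} [Group G] {ρ : G → G → ℝ} (hρ : BiMetric G ρ)
    (hloc : ∀ (B : Finset G) (n : ℕ), ∃ (F : Type u) (_ : Group F) (_ : Finite F)
      (dF : F → F → ℝ) (_ : BiMetric F dF) (f : G → F),
      (∀ x, dF (f x) 1 ≤ ρ x 1 + 1) ∧
      (∀ x ∈ B, ∀ y ∈ B, x * y ∈ B → dF (f (x * y)) (f x * f y) ≤ 1 / ((n : ℝ) + 1)) ∧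
      (∀ x ∈ B, ∀ y ∈ B, |dF (f x) (f y) - ρ x y| ≤ 1 / ((n : ℝ) + 1))) :
    EmbedsInFiniteUltraproduct G ρ := by
  classical
  have hloc' : ∀ i : Finset G × ℕ, ∃ (F : Type u) (_ : Group F) (_ : Finite F)
      (dF : F → F → ℝ) (_ : BiMetric F dF) (f : G → F),
      (∀ x, dF (f x) 1 ≤ ρ x 1 + 1) ∧
      (∀ x ∈ i.1, ∀ y ∈ i.1, x * y ∈ i.1 →
        dF (f (x * y)) (f x * f y) ≤ 1 / ((i.2 : ℝ) + 1)) ∧
      (∀ x ∈ i.1, ∀ y ∈ i.1, |dF (f x) (f y) - ρ x y| ≤ 1 / ((i.2 : ℝ) + 1)) :=
    fun i => hloc i.1 i.2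
  choose F iF finF dF hdF f hf1 hf2 hf3 using hloc'
  let U : Ultrafilter (Finset G × ℕ) := Ultrafilter.of (atTop : Filter (Finset G × ℕ))
  have hUle : (U : Filter (Finset G × ℕ)) ≤ atTop := Ultrafilter.of_le _
  have hU : ∀ B : Finset G, ∀ᶠ A in (U : Filter (Finset G × ℕ)), B ⊆ A.1 := by
    intro B
    have h1 : ∀ᶠ A : Finset G × ℕ in atTop, (B, 0) ≤ A := eventually_ge_atTop _
    filter_upwards [hUle h1] with A hA
    exact hA.1
  have hsnd : Tendsto (fun i : Finset G × ℕ => i.2) (U : Filter (Finset G × ℕ)) atTop := by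
    have h1 : Tendsto (fun i : Finset G × ℕ => i.2) atTop atTop := by
      rw [← prod_atTop_atTop_eq]
      exact tendsto_snd
    exact h1.mono_left hUle
  have hsmall : Tendsto (fun i : Finset G × ℕ => 1 / ((i.2 : ℝ) + 1))
      (U : Filter (Finset G × ℕ)) (𝓝 0) :=
    tendsto_one_div_add_atTop_nhds_zero_nat.comp hsnd
  let fam : G → Bounded dF hdF := fun x => ⟨fun B => f B x, ⟨ρ x 1 + 1, fun B => hf1 B x⟩⟩
  have hdist : ∀ x y, udist U dF hdF (QuotientGroup.mk (fam x)) (QuotientGroup.mk (fam y))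
      = ρ x y := by
    intro x y
    have h1 := tendsto_udist U dF hdF (fam x) (fam y)
    have h2 : Tendsto (fun i => dF i ((fam x).1 i) ((fam y).1 i) - ρ x y)
        (U : Filter (Finset G × ℕ)) (𝓝 0) := by
      refine squeeze_zero_norm' ?_ hsmall
      filter_upwards [hU {x, y}] with A hA
      rw [Real.norm_eq_abs]
      exact hf3 A x (hA (by simp)) y (hA (by simp))
    have h3 : Tendsto (fun i => dF i ((fam x).1 i) ((fam y).1 i))
        (U : Filter (Finset G × ℕ)) (𝓝 (ρ x y)) := by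
      have h4 := h2.add_const (ρ x y)
      simpa using h4
    exact tendsto_nhds_unique h1 h3
  have hmul : ∀ x y, (QuotientGroup.mk (fam (x * y)) : Ultraproduct U dF hdF)
      = QuotientGroup.mk (fam x) * QuotientGroup.mk (fam y) := by
    intro x y
    rw [← QuotientGroup.mk_mul, QuotientGroup.eq, mem_Null]
    refine squeeze_zero' (Filter.Eventually.of_forall fun i => (hdF i).nonneg _ _) ?_ hsmall
    filter_upwards [hU {x, y, x * y}] with A hA
    have h1 := hf2 A x (hA (by simp)) y (hA (by simp)) (hA (by simp))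
    have h2 : dF A (((fam (x * y))⁻¹ * (fam x * fam y)).1 A) 1
        = dF A (f A (x * y)) (f A x * f A y) := by
      rw [(hdF A).eq_left (f A (x * y))]
      rfl
    rw [h2]
    exact h1
  let φ : G →* Ultraproduct U dF hdF := MonoidHom.mk' (fun x => QuotientGroup.mk (fam x)) hmul
  refine ⟨Finset G × ℕ, F, iF, finF, dF, hdF, U, φ, ?_, hdist⟩
  intro x y hxy
  have h1 := hdist x y
  have h2 := hdist y y
  have h3 : (QuotientGroup.mk (fam x) : Ultraproduct U dF hdF) = QuotientGroup.mk (fam y) := hxy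
  rw [h3, h2, hρ.self] at h1
  exact (hρ.eq_zero_iff x y).1 h1.symm

/-- the perturbed pull back of a bi-invariant metric -/
theorem biMetric_cover {W H : Type*} [Group W] [Group H] [DecidableEq W] {ρ : H → H → ℝ}
    (hρ : BiMetric H ρ) (p : W →* H) {ε : ℝ} (hε : 0 < ε) :
    BiMetric W (fun x y => ρ (p x) (p y) + if x = y then 0 else ε) := by
  refine ⟨?_, ?_, ?_, ?_, ?_⟩
  · intro a b
    constructor
    · intro h
      by_contra hne
      have h1 := hρ.nonneg (p a) (p b)
      simp only [if_neg hne] at h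
      linarith
    · rintro rfl
      simp [hρ.self]
  · intro a b
    have h0 := hρ.symm (p a) (p b)
    by_cases h : a = b
    · subst h
      rfl
    · have h' : b ≠ a := fun h2 => h h2.symm
      simp only [if_neg h, if_neg h', h0]
  · intro a b c
    have h1 := hρ.triangle (p a) (p b) (p c)
    by_cases hac : a = c
    · subst hac
      by_cases hab : a = b
      · subst hab
        simp only [if_true]
        linarith
      · have h' : b ≠ a := fun h2 => hab h2.symm
        simp only [if_true, if_neg hab, if_neg h']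
        linarith
    · by_cases hab : a = b
      · subst hab
        simp only [if_neg hac, if_true]
        linarith
      · by_cases hbc : b = c
        · subst hbc
          simp only [if_neg hac, if_true]
          linarith
        · simp only [if_neg hac, if_neg hab, if_neg hbc]
          linarith
  · intro g a b
    simp only [map_mul, hρ.left, mul_right_inj]
  · intro g a b
    simp only [map_mul, hρ.right, mul_left_inj]

/-- the cover lemma -/
theorem embeds_of_cover {H : Type u} [Group H] {ρ : H → H → ℝ} (hρ : BiMetric H ρ)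
    (hc : ∀ S : Finset H, ∃ (W : Type u) (_ : Group W) (p : W →* H),
      (∀ s ∈ S, s ∈ p.range) ∧ PC W) :
    EmbedsInFiniteUltraproduct H ρ := by
  classical
  apply embeds_of_approx hρ
  intro B n
  obtain ⟨W, iW, p, hp, hPC⟩ := hc B
  set ε : ℝ := 1 / ((n : ℝ) + 1) with hεdef
  have hε : 0 < ε := by rw [hεdef]; positivity
  have hε1 : ε ≤ 1 := by
    rw [hεdef, div_le_one (by positivity)]
    have : (0 : ℝ) ≤ n := Nat.cast_nonneg n
    linarith
  have hlift : ∀ b : H, ∃ w : W, b ∈ B → p w = b := by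
    intro b
    by_cases hb : b ∈ B
    · obtain ⟨w, hw⟩ := hp b hb
      exact ⟨w, fun _ => hw⟩
    · exact ⟨1, fun h => absurd h hb⟩
  choose σ hσ using hlift
  have hρW := biMetric_cover hρ p hε
  set ρW : W → W → ℝ := fun x y => ρ (p x) (p y) + if x = y then 0 else ε with hρWdef
  let BW : Finset W := insert 1 (B.image σ ∪ Finset.image₂ (fun x y => σ x * σ y) B B)
  let A : Finset W := (Finset.image₂ (fun x y => x * y⁻¹) BW BW).erase 1
  have hA1 : (1 : W) ∉ A := Finset.notMem_erase _ _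
  have hAmem : ∀ x y : W, x ∈ BW → y ∈ BW → x ≠ y → x * y⁻¹ ∈ A := by
    intro x y hx hy hxy
    rw [Finset.mem_erase]
    refine ⟨fun h => hxy (mul_inv_eq_one.1 h), ?_⟩
    exact Finset.mem_image₂_of_mem hx hy
  have hAinv : ∀ a ∈ A, a⁻¹ ∈ A := by
    intro a ha
    rw [Finset.mem_erase] at ha
    obtain ⟨h1, h2⟩ := ha
    obtain ⟨x, hx, y, hy, rfl⟩ := Finset.mem_image₂.1 h2
    have h3 : (x * y⁻¹)⁻¹ = y * x⁻¹ := by group
    rw [h3]
    apply hAmem y x hy hx
    rintro rfl
    exact h1 (by group)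
  obtain ⟨K, hKn, hKf, dF, hdF, hdA⟩ := exists_quot hPC hρW A hA1 hAinv
  have hd : ∀ x ∈ BW, ∀ y ∈ BW,
      dF (QuotientGroup.mk x : W ⧸ K) (QuotientGroup.mk y) = ρW x y := by
    intro x hx y hy
    by_cases hxy : x = y
    · subst hxy
      rw [hdF.self, hρW.self]
    · have h2 := hdA _ (hAmem x y hx hy hxy)
      have h3 := hdF.right (QuotientGroup.mk y)⁻¹ (QuotientGroup.mk x : W ⧸ K)
        (QuotientGroup.mk y)
      rw [mul_inv_cancel] at h3
      rw [← h3]
      have h4 : (QuotientGroup.mk x : W ⧸ K) * (QuotientGroup.mk y)⁻¹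
          = QuotientGroup.mk (x * y⁻¹) := rfl
      rw [h4, h2]
      have h5 := hρW.right y (x * y⁻¹) 1
      rw [inv_mul_cancel_right, one_mul] at h5
      exact h5.symm
  have hσmem : ∀ b ∈ B, σ b ∈ BW := by
    intro b hb
    exact Finset.mem_insert_of_mem (Finset.mem_union_left _ (Finset.mem_image_of_mem _ hb))
  have hσmem2 : ∀ b ∈ B, ∀ c ∈ B, σ b * σ c ∈ BW := by
    intro b hb c hc'
    exact Finset.mem_insert_of_mem (Finset.mem_union_right _
      (Finset.mem_image₂_of_mem hb hc'))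
  have h1mem : (1 : W) ∈ BW := Finset.mem_insert_self _ _
  have hif : ∀ x y : W, 0 ≤ (if x = y then (0 : ℝ) else ε) ∧ (if x = y then (0 : ℝ) else ε) ≤ ε := by
    intro x y
    by_cases h : x = y
    · simp [h, hε.le]
    · simp [h, hε.le]
  refine ⟨W ⧸ K, inferInstance, inferInstance, dF, hdF,
    fun x => if x ∈ B then (QuotientGroup.mk (σ x) : W ⧸ K) else 1, ?_, ?_, ?_⟩
  · intro x
    by_cases hx : x ∈ B
    · simp only [if_pos hx]
      have h2 := hd (σ x) (hσmem x hx) 1 h1mem
      have h3 : (QuotientGroup.mk (1 : W) : W ⧸ K) = 1 := rfl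
      rw [h3] at h2
      rw [h2, hρWdef]
      simp only [map_one, hσ x hx]
      have := (hif (σ x) 1).2
      linarith
    · simp only [if_neg hx]
      rw [hdF.self]
      have := hρ.nonneg x 1
      linarith
  · intro x hx y hy hxy
    simp only [if_pos hx, if_pos hy, if_pos hxy]
    have h2 := hd (σ (x * y)) (hσmem _ hxy) (σ x * σ y) (hσmem2 x hx y hy)
    have h3 : (QuotientGroup.mk (σ x * σ y) : W ⧸ K)
        = QuotientGroup.mk (σ x) * QuotientGroup.mk (σ y) := rfl
    rw [h3] at h2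
    rw [h2, hρWdef]
    simp only [map_mul, hσ x hx, hσ y hy, hσ (x * y) hxy, hρ.self]
    have := (hif (σ (x * y)) (σ x * σ y)).2
    linarith
  · intro x hx y hy
    simp only [if_pos hx, if_pos hy]
    rw [hd (σ x) (hσmem x hx) (σ y) (hσmem y hy), hρWdef]
    simp only [hσ x hx, hσ y hy]
    obtain ⟨h1, h2⟩ := hif (σ x) (σ y)
    rw [abs_le]
    constructor <;> linarith

end Pool.Agent.H18PC
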