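import Mathlib
import Pool.Agent.H18PC.PC
import Pool.Agent.H18PC.Local
import Pool.Agent.H71MU.Ultra
import Pool.Agent.H93RF.RF

set_option autoImplicit false

namespace Pool.Agent.H18PC

universe u

theorem rfStatement : RFStatement.{u} := by
  intro N _ _ h2 C _ y hy
  exact H93RF.rf h2 C y hy

/-- a finitely generated group `G` with a normal subgroup `N` of finite index such that
`[[N, G], N] = 1`: every product of conjugacy classes is closed in the profinite topology -/
theorem pc_of {G : Type u} [Group G] [Group.FG G] (N : Subgroup G) [N.Normal]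
    [N.FiniteIndex]
    (hN : ∀ n ∈ N, ∀ g : G, ∀ m ∈ N, n * g * n⁻¹ * g⁻¹ * m = m * (n * g * n⁻¹ * g⁻¹)) :
    PC G :=
  pc_of_rf N rfStatement hN

/-- `H` is locally of the kind of `pc_of` -/
def LocallyTame (H : Type u) [Group H] : Prop :=
  ∀ S : Finset H, ∃ N : Subgroup (Subgroup.closure (S : Set H)), N.Normal ∧ N.FiniteIndex ∧
    ∀ n ∈ N, ∀ g : Subgroup.closure (S : Set H), ∀ m ∈ N,
      n * g * n⁻¹ * g⁻¹ * m = m * (n * g * n⁻¹ * g⁻¹)

theorem embeds_of_tame {H : Type u} [Group H] {ρ : H → H → ℝ} (hρ : H71MU.BiMetric H ρ)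
    (hH : LocallyTame H) : H71MU.EmbedsInFiniteUltraproduct H ρ := by
  apply embeds_of_PC hρ
  intro S
  obtain ⟨N, h1, h2, h3⟩ := hH S
  have : Group.FG (Subgroup.closure (S : Set H)) :=
    (Group.fg_iff_subgroup_fg _).2 ⟨S, rfl⟩
  exact pc_of N h3

/-- class at most two -/
theorem tame_of_class_two {H : Type u} [Group H]
    (h : ∀ a b c : H, a * b * a⁻¹ * b⁻¹ * c = c * (a * b * a⁻¹ * b⁻¹)) : LocallyTame H := by
  intro S
  refine ⟨⊤, inferInstance, inferInstance, ?_⟩
  intro n _ g m _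
  apply Subtype.ext
  simp only [Subgroup.coe_mul, Subgroup.coe_inv]
  exact h _ _ _

/-- a normal subgroup `N` of finite index with `[[N, H], N] = 1` -/
theorem tame_of_normal {H : Type u} [Group H] (N : Subgroup H) [N.Normal] [N.FiniteIndex]
    (hN : ∀ n ∈ N, ∀ g : H, ∀ m ∈ N, n * g * n⁻¹ * g⁻¹ * m = m * (n * g * n⁻¹ * g⁻¹)) :
    LocallyTame H := by
  intro S
  refine ⟨N.subgroupOf _, inferInstance, inferInstance, ?_⟩
  intro n hn g m hm
  rw [Subgroup.mem_subgroupOf] at hn hm
  apply Subtype.ext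
  simp only [Subgroup.coe_mul, Subgroup.coe_inv]
  exact hN _ hn _ _ hm

/-- virtually abelian groups -/
theorem tame_of_virtually_abelian {H : Type u} [Group H] (A : Subgroup H) [A.FiniteIndex]
    (hA : ∀ a ∈ A, ∀ b ∈ A, a * b = b * a) : LocallyTame H := by
  apply tame_of_normal A.normalCore
  intro n hn g m hm
  have h1 : n * g * n⁻¹ * g⁻¹ ∈ A.normalCore := by
    have h2 : g * n⁻¹ * g⁻¹ ∈ A.normalCore :=
      (inferInstance : A.normalCore.Normal).conj_mem _ (A.normalCore.inv_mem hn) g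
    have h3 : n * g * n⁻¹ * g⁻¹ = n * (g * n⁻¹ * g⁻¹) := by group
    rw [h3]
    exact A.normalCore.mul_mem hn h2
  exact hA _ (A.normalCore_le h1) _ (A.normalCore_le hm)

/-- locally finite groups -/
theorem tame_of_locally_finite {H : Type u} [Group H]
    (h : ∀ S : Finset H, Finite (Subgroup.closure (S : Set H))) : LocallyTame H := by
  intro S
  have := h S
  refine ⟨⊥, inferInstance, inferInstance, ?_⟩
  intro n hn g m hm
  rw [Subgroup.mem_bot] at hn hm
  subst hn
  subst hm
  group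

end Pool.Agent.H18PC
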